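import Pool.Agent.LibHN1.V
import Pool.Agent.LibHN1.D2
import Pool.Agent.LibHB89.E6

set_option autoImplicit false

namespace Pool.Agent.LibHN1

open Polynomial
open Pool.Agent.LibHof81 (mon lev)

/-- a class of points with the same value is lower-good. -/
theorem lgood_of_value {K : Type*} [Field K] [Algebra K ℂ] {Γ : Type}
    [LinearOrderedCommGroupWithZero Γ] (v : Valuation ℂ Γ)
    (hv : ∀ k : K, k ≠ 0 → v (algebraMap K ℂ k) = 1) (x : ℂ) (hx : 1 < v x)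
    (H : ℕ × ℕ → ℂ) (hH : ∀ p, H p ≠ 0) (c : ℕ × ℕ → ℚ) (hc : ∀ p, c p ≠ 0) (Λ : ℚ[X] →ₗ[ℚ] ℂ)
    (hΛ : ∀ p, Λ (mon p) = (c p : ℂ) * H p * (x⁻¹) ^ lev p) (γ : Γ) (C : Set (ℕ × ℕ))
    (hC : ∀ p ∈ C, v (H p) = γ) : LGood C := by
  have hrat : ∀ q : ℚ, v (q : ℂ) ≤ 1 := by
    intro q
    have hcz : CharZero K := by
      refine ⟨fun a b hab => ?_⟩
      have h1 : algebraMap K ℂ (a : K) = algebraMap K ℂ (b : K) := by rw [hab]
      rw [map_natCast, map_natCast] at h1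
      exact_mod_cast h1
    by_cases hq : q = 0
    · rw [hq, Rat.cast_zero, map_zero]
      exact zero_le'
    · have h1 := hv (q : K) (by exact_mod_cast hq)
      rw [map_ratCast] at h1
      exact h1.le
  have hrat1 : ∀ q : ℚ, q ≠ 0 → v (q : ℂ) = 1 := by
    intro q hq
    refine le_antisymm (hrat q) ?_
    have h1 := hrat q⁻¹
    rw [Rat.cast_inv, map_inv₀] at h1
    have hq' : v (q : ℂ) ≠ 0 := (Valuation.ne_zero_iff v).2 (by exact_mod_cast hq)
    exact (inv_le_one₀ (zero_lt_iff.2 hq')).1 h1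
  have hx0 : v x ≠ 0 := (zero_lt_one.trans hx).ne'
  have hval : ∀ p ∈ C, v (Λ (mon p)) = γ * (v x)⁻¹ ^ lev p := by
    intro p hp
    rw [hΛ, map_mul, map_mul, hrat1 _ (hc p), one_mul, hC p hp, map_pow, map_inv₀]
  intro p hp hmem
  have hγ : γ ≠ 0 := by
    rw [← hC p hp]
    exact (Valuation.ne_zero_iff v).2 (hH p)
  have hB : ∀ f ∈ Submodule.span ℚ (mon '' {q | q ∈ C ∧ lev p < lev q}),
      v (Λ f) < γ * (v x)⁻¹ ^ lev p := by
    intro f hf
    have hpos : 0 < γ * (v x)⁻¹ ^ lev p :=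
      zero_lt_iff.2 (mul_ne_zero hγ (pow_ne_zero _ (inv_ne_zero hx0)))
    induction hf using Submodule.span_induction with
    | mem f hf =>
      obtain ⟨q, ⟨hq, hlt⟩, rfl⟩ := hf
      rw [hval q hq]
      have h1 : (v x)⁻¹ ^ lev q < (v x)⁻¹ ^ lev p :=
        pow_lt_pow_right_of_lt_one₀ (zero_lt_iff.2 (inv_ne_zero hx0))
          ((inv_lt_one₀ (zero_lt_iff.2 hx0)).2 hx) hlt
      exact (mul_lt_mul_iff_right₀ (zero_lt_iff.2 hγ)).2 h1
    | zero =>
      rw [map_zero, map_zero]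
      exact hpos
    | add f g _ _ hf hg =>
      rw [map_add]
      exact v.map_add_lt hf hg
    | smul r f _ hf =>
      rw [map_smul, Rat.smul_def, map_mul]
      exact (mul_le_of_le_one_left' (hrat r)).trans_lt hf
  have := hB _ hmem
  rw [hval p hp] at this
  exact lt_irrefl _ this

/-- The exceptional bound for numbers algebraic of bounded degree over a space of bounded dimension. -/
theorem exceptional_alg (r d : ℕ) (ε : ℝ) (hε : 0 < ε) :
    ∃ M₀ : ℕ, ∀ M ≥ M₀, ∀ (K : Type) [Field K] [Algebra K ℂ] (x : ℂ) (_ : Transcendental K x)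
      (H : ℕ × ℕ → ℂ) (_ : ∀ p, H p ≠ 0) (c : ℕ × ℕ → ℚ) (_ : ∀ p, c p ≠ 0) (Λ : ℚ[X] →ₗ[ℚ] ℂ)
      (_ : ∀ p, Λ (mon p) = (c p : ℂ) * H p * (x⁻¹) ^ lev p) (W : Submodule K ℂ)
      (_ : FiniteDimensional K W) (_ : Module.finrank K W ≤ r),
      ({p : ℕ × ℕ | (p.1 < M ∧ p.2 < M) ∧ AlgD d W (H p)}.ncard : ℝ) ≤ ε * (M : ℝ) ^ 2 := by
  classical
  set k : ℕ := d * r ^ 2 + 1 with hk
  have hkpos : (0 : ℝ) < (k : ℝ) := by
    rw [hk]; positivity
  obtain ⟨M₀, hM₀⟩ := lgood_density (ε / k) (by positivity)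
  refine ⟨M₀, fun M hM K _ _ x hx H hH c hc Λ hΛ W hWf hWr => ?_⟩
  obtain ⟨w, hw⟩ := Pool.HB89.exists_le_span r W hWr
  obtain ⟨Γ, _, v, hvx, hvK⟩ := Pool.Agent.LibHof81.exists_valuation x hx
  obtain ⟨D, hDcard, hD⟩ := values_alg v hvK r d w
  set E : Finset (ℕ × ℕ) := (Finset.range M ×ˢ Finset.range M).filter
    (fun p => AlgD d W (H p)) with hE
  have hEset : {p : ℕ × ℕ | (p.1 < M ∧ p.2 < M) ∧ AlgD d W (H p)} ⊆ (E : Set (ℕ × ℕ)) := by
    intro p hp
    rw [hE, Finset.coe_filter]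
    refine ⟨?_, hp.2⟩
    rw [Finset.mem_product, Finset.mem_range, Finset.mem_range]
    exact hp.1
  have hle := Set.ncard_le_ncard hEset (Finset.finite_toSet _)
  rw [Set.ncard_coe_finset] at hle
  refine (Nat.cast_le.2 hle).trans ?_
  have hED : ∀ p ∈ E, v (H p) ∈ D := by
    intro p hp
    have h1 := (Finset.mem_filter.1 hp).2
    obtain ⟨P, hP, hdeg, hcoeff, heval⟩ := h1
    exact hD _ (hH p) ⟨P, hP, hdeg, fun i => hw (hcoeff i), heval⟩
  have hclass : ∀ γ ∈ D, ((E.filter (fun p => v (H p) = γ)).card : ℝ) ≤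
      ε / k * (M : ℝ) ^ 2 := by
    intro γ _
    apply hM₀ M hM
    · refine lgood_of_value v hvK x hvx H hH c hc Λ hΛ γ _ ?_
      intro p hp
      exact (Finset.mem_filter.1 (Finset.mem_coe.1 hp)).2
    · intro p hp
      have h1 := (Finset.mem_filter.1 (Finset.mem_filter.1 hp).1).1
      rw [Finset.mem_product, Finset.mem_range, Finset.mem_range] at h1
      exact h1
  have hsum : E.card = ∑ γ ∈ D, (E.filter (fun p => v (H p) = γ)).card :=
    Finset.card_eq_sum_card_fiberwise (fun p hp => hED p hp)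
  rw [hsum]
  push_cast
  have hDk : (D.card : ℝ) ≤ k := by
    rw [hk]
    exact_mod_cast hDcard.trans (Nat.le_succ _)
  calc ∑ γ ∈ D, ((E.filter (fun p => v (H p) = γ)).card : ℝ)
      ≤ ∑ _γ ∈ D, ε / k * (M : ℝ) ^ 2 := Finset.sum_le_sum hclass
    _ = D.card * (ε / k * (M : ℝ) ^ 2) := by
        rw [Finset.sum_const, nsmul_eq_mul]
    _ ≤ k * (ε / k * (M : ℝ) ^ 2) := mul_le_mul_of_nonneg_right hDk (by positivity)
    _ = ε * (M : ℝ) ^ 2 := by
        field_simp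

end Pool.Agent.LibHN1
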