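import Pool.Agent.LibHN1.V

set_option autoImplicit false

namespace Pool.Agent.LibHN1

open MvPolynomial

/-- A relation of degree at most `d` with coefficients in `W`. -/
def Rel {K : Type*} [Field K] [Algebra K ℂ] {s : ℕ} (d : ℕ) (W : Submodule K ℂ) (z : Fin s → ℂ) : Prop :=
  ∃ P : MvPolynomial (Fin s) ℂ, P ≠ 0 ∧ P.totalDegree ≤ d ∧ (∀ m, P.coeff m ∈ W) ∧ eval z P = 0

/-- the map `(f_j) ↦ ∑ z^j f_j`. -/
noncomputable def powMap {K : Type*} [Field K] [Algebra K ℂ] (d : ℕ) (W : Submodule K ℂ) (z : ℂ) :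
    (Fin (d + 1) → W) →ₗ[K] ℂ :=
  ∑ j : Fin (d + 1), (LinearMap.mulLeft K (z ^ (j : ℕ))).comp (W.subtype.comp (LinearMap.proj j))

theorem powMap_apply {K : Type*} [Field K] [Algebra K ℂ] (d : ℕ) (W : Submodule K ℂ) (z : ℂ)
    (f : Fin (d + 1) → W) : powMap d W z f = ∑ j : Fin (d + 1), z ^ (j : ℕ) * (f j : ℂ) := by
  simp [powMap, LinearMap.sum_apply]

theorem finrank_range_powMap {K : Type*} [Field K] [Algebra K ℂ] (d : ℕ) (W : Submodule K ℂ)
    [FiniteDimensional K W] (z : ℂ) :
    Module.finrank K (LinearMap.range (powMap d W z)) ≤ (d + 1) * Module.finrank K W := by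
  refine (LinearMap.finrank_range_le _).trans ?_
  rw [Module.finrank_pi_fintype]
  simp

/-- substituting a number which is not algebraic of degree `≤ d` over `W`. -/
theorem Rel.reduce {K : Type*} [Field K] [Algebra K ℂ] {s : ℕ} (d : ℕ) (W : Submodule K ℂ)
    (z : Fin (s + 1) → ℂ) (h : Rel d W z) (h0 : ¬ AlgD d W (z 0)) :
    Rel d (LinearMap.range (powMap d W (z 0))) (fun j : Fin s => z j.succ) := by
  classical
  obtain ⟨P, hP, hdeg, hcoeff, heval⟩ := h
  set F := finSuccEquiv ℂ s P with hF
  have hFdeg : F.natDegree < d + 1 := by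
    rw [hF, natDegree_finSuccEquiv]
    have := degreeOf_le_totalDegree P 0
    omega
  set Q : MvPolynomial (Fin s) ℂ := F.eval (C (z 0)) with hQ
  have hQc : ∀ m, coeff m Q = ∑ j ∈ Finset.range (d + 1), coeff (m.cons j) P * (z 0) ^ j := by
    intro m
    rw [hQ, Polynomial.eval_eq_sum_range' hFdeg, coeff_sum]
    refine Finset.sum_congr rfl fun j _ => ?_
    rw [← C_pow, mul_comm, coeff_C_mul, hF, finSuccEquiv_coeff_coeff, mul_comm]
  refine ⟨Q, ?_, ?_, ?_, ?_⟩
  · intro hQ0
    obtain ⟨m', hm'⟩ := exists_coeff_ne_zero hP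
    apply h0
    set m := m'.tail with hm
    set R : Polynomial ℂ := ∑ j ∈ Finset.range (d + 1), Polynomial.monomial j (coeff (m.cons j) P)
      with hR
    have hRc : ∀ i, R.coeff i = if i < d + 1 then coeff (m.cons i) P else 0 := by
      intro i
      rw [hR, Polynomial.finset_sum_coeff]
      simp only [Polynomial.coeff_monomial]
      rw [Finset.sum_ite_eq']
      simp only [Finset.mem_range]
    have hm0 : m' 0 < d + 1 := by
      have h1 := le_totalDegree (mem_support_iff.2 hm')
      have h2 : m' 0 ≤ m'.sum fun _ e => e := by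
        by_cases h3 : m' 0 = 0
        · rw [h3]; exact Nat.zero_le _
        · exact Finset.single_le_sum (f := fun i => m' i) (fun _ _ => Nat.zero_le _)
            (Finsupp.mem_support_iff.2 h3)
      omega
    refine ⟨R, ?_, ?_, ?_, ?_⟩
    · intro hR0
      have h1 := hRc (m' 0)
      rw [if_pos hm0, hR0, Polynomial.coeff_zero, hm, Finsupp.cons_tail] at h1
      exact hm' h1.symm
    · rw [Polynomial.natDegree_le_iff_coeff_eq_zero]
      intro i hi
      rw [hRc, if_neg (by omega)]
    · intro i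
      rw [hRc]
      split_ifs
      · exact hcoeff _
      · exact W.zero_mem
    · rw [hR, Polynomial.eval_finset_sum]
      simp only [Polynomial.eval_monomial]
      rw [← hQc m, hQ0, coeff_zero]
  · unfold totalDegree
    refine Finset.sup_le fun m hm => ?_
    have h1 : coeff m Q ≠ 0 := mem_support_iff.1 hm
    rw [hQc] at h1
    obtain ⟨j, _, hj⟩ := Finset.exists_ne_zero_of_sum_ne_zero h1
    have h2 : coeff (m.cons j) P ≠ 0 := left_ne_zero_of_mul hj
    have h3 := (le_totalDegree (mem_support_iff.2 h2)).trans hdeg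
    rw [Finsupp.sum_cons] at h3
    omega
  · intro m
    rw [hQc]
    refine ⟨fun j => ⟨coeff (m.cons (j : ℕ)) P, hcoeff _⟩, ?_⟩
    rw [powMap_apply, Finset.sum_range]
    refine Finset.sum_congr rfl fun j _ => ?_
    rw [mul_comm]
  · have hz : z = Fin.cons (z 0) (fun j : Fin s => z j.succ) := (Fin.cons_self_tail z).symm
    rw [hz, eval_eq_eval_mv_eval'] at heval
    rw [hQ]
    have h1 : eval (fun j : Fin s => z j.succ) (F.eval (C (z 0))) =
        (F.map (eval (fun j : Fin s => z j.succ))).eval (eval (fun j : Fin s => z j.succ) (C (z 0))) := by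
      rw [Polynomial.eval_map, Polynomial.eval₂_hom]
    rw [h1, eval_C]
    exact heval

end Pool.Agent.LibHN1
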