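import Pool.Agent.LibHof81.D1a
import Pool.Agent.LibHof81.D1b
import Pool.Agent.LibHof81.J1
import Pool.Agent.LibHof81.B3
import Pool.Agent.LibHof81.D0

set_option autoImplicit false

namespace Pool.Agent.LibHN1

open Polynomial
open Pool.Agent.LibHof81 (mon lev sq mon_add mon_mem_degreeLT low_levels block_row rows_le)

/-- No monomial of `C` lies in the span of the monomials of `C` of the higher levels. -/
def LGood (C : Set (ℕ × ℕ)) : Prop :=
  ∀ p ∈ C, mon p ∉ Submodule.span ℚ (mon '' {q | q ∈ C ∧ lev p < lev q})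

theorem LGood.mono {C D : Set (ℕ × ℕ)} (h : LGood D) (hCD : C ⊆ D) : LGood C := by
  intro p hp hmem
  refine h p (hCD hp) (Submodule.span_mono (Set.image_mono ?_) hmem)
  intro q hq
  exact ⟨hCD hq.1, hq.2⟩

theorem LGood.translate {C : Set (ℕ × ℕ)} (h : LGood C) (v : ℕ × ℕ) :
    LGood {p | p + v ∈ C} := by
  intro p hp hmem
  refine h (p + v) hp ?_
  rw [mon_add]
  have h1 : mon v * mon p ∈ (Submodule.span ℚ (mon '' {q | q ∈ {p | p + v ∈ C} ∧ lev p < lev q})).map
      (LinearMap.mulLeft ℚ (mon v)) := ⟨mon p, hmem, rfl⟩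
  rw [Submodule.map_span] at h1
  refine Submodule.span_mono ?_ h1
  rintro _ ⟨_, ⟨q, ⟨hq, hlev⟩, rfl⟩, rfl⟩
  refine ⟨q + v, ⟨hq, ?_⟩, ?_⟩
  · simp only [lev, Prod.fst_add, Prod.snd_add] at hlev ⊢
    omega
  · rw [mon_add]; rfl

/-- every lower level of a lower-good set adds at least one to the rank. -/
theorem rank_levels_low (C : Set (ℕ × ℕ)) (hC : LGood C) (P Q : Finset (ℕ × ℕ))
    (hP : (P : Set (ℕ × ℕ)) ⊆ C) (hQ : (Q : Set (ℕ × ℕ)) ⊆ C)
    (hinj : Set.InjOn lev (Q : Set (ℕ × ℕ)))
    (hdis : ∀ p ∈ P, ∀ q ∈ Q, lev q < lev p) (N : ℕ)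
    (hNP : ∀ p ∈ P, lev p ≤ N) (hNQ : ∀ q ∈ Q, lev q ≤ N) :
    Module.finrank ℚ (Submodule.span ℚ (mon '' (P : Set (ℕ × ℕ)))) + Q.card ≤ 2 * N + 1 := by
  classical
  have hfin : ∀ S : Finset (ℕ × ℕ), Module.Finite ℚ (Submodule.span ℚ (mon '' (S : Set (ℕ × ℕ)))) :=
    fun S => Module.Finite.span_of_finite ℚ (S.finite_toSet.image _)
  -- insert the points of `Q` by decreasing level
  have key : ∀ k : ℕ, ∀ Q' : Finset (ℕ × ℕ), Q' ⊆ Q → Q'.card = k →
      (∀ x ∈ Q', ∀ y ∈ Q, y ∉ Q' → lev y < lev x) →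
      Module.finrank ℚ (Submodule.span ℚ (mon '' (P : Set (ℕ × ℕ)))) + Q'.card ≤
        Module.finrank ℚ (Submodule.span ℚ (mon '' ((P ∪ Q' : Finset (ℕ × ℕ)) : Set (ℕ × ℕ)))) := by
    intro k
    induction k with
    | zero =>
      intro Q' _ hk _
      rw [Finset.card_eq_zero] at hk
      rw [hk, Finset.union_empty, Finset.card_empty, add_zero]
    | succ k ih =>
      intro Q' hsub hk htop
      have hne : Q'.Nonempty := by
        rw [← Finset.card_pos]
        omega
      obtain ⟨q, hq, hmin⟩ := Q'.exists_min_image lev hne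
      have hq2 : q ∈ Q := hsub hq
      have hlow : ∀ x ∈ Q'.erase q, lev q < lev x := by
        intro x hx
        rw [Finset.mem_erase] at hx
        refine lt_of_le_of_ne (hmin x hx.2) ?_
        intro h
        exact hx.1 (hinj (hsub hx.2) hq2 h.symm)
      have ih' := ih (Q'.erase q) ((Finset.erase_subset _ _).trans hsub)
        (by rw [Finset.card_erase_of_mem hq]; omega) (by
          intro x hx y hy hyQ
          by_cases hyq : y = q
          · rw [hyq]
            exact hlow x hx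
          · refine htop x (Finset.mem_of_mem_erase hx) y hy ?_
            intro hy2
            exact hyQ (Finset.mem_erase.2 ⟨hyq, hy2⟩))
      have hcard : Q'.card = (Q'.erase q).card + 1 := by
        rw [Finset.card_erase_of_mem hq]
        omega
      have hins : Q' = insert q (Q'.erase q) := (Finset.insert_erase hq).symm
      have hlt : Submodule.span ℚ (mon '' ((P ∪ Q'.erase q : Finset (ℕ × ℕ)) : Set (ℕ × ℕ))) <
          Submodule.span ℚ (mon '' ((P ∪ Q' : Finset (ℕ × ℕ)) : Set (ℕ × ℕ))) := by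
        refine lt_of_le_of_ne (Submodule.span_mono (Set.image_mono ?_)) ?_
        · intro x hx
          simp only [Finset.mem_coe, Finset.mem_union, Finset.mem_erase] at hx ⊢
          tauto
        · intro heq
          have h1 : mon q ∈ Submodule.span ℚ
              (mon '' ((P ∪ Q' : Finset (ℕ × ℕ)) : Set (ℕ × ℕ))) := by
            refine Submodule.subset_span ⟨q, ?_, rfl⟩
            rw [Finset.mem_coe, Finset.mem_union]
            exact Or.inr hq
          rw [← heq] at h1
          refine hC q (hQ hq2) (Submodule.span_mono (Set.image_mono ?_) h1)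
          intro x hx
          rw [Finset.mem_coe, Finset.mem_union] at hx
          rcases hx with hx | hx
          · exact ⟨hP hx, hdis x hx q hq2⟩
          · exact ⟨hQ (hsub (Finset.mem_of_mem_erase hx)), hlow x hx⟩
      have := hfin (P ∪ Q')
      have h2 := Submodule.finrank_lt_finrank_of_lt hlt
      omega
  have h1 := key Q.card Q (Finset.Subset.refl _) rfl (fun x _ y hy hy2 => absurd hy hy2)
  have h2 : Submodule.span ℚ (mon '' ((P ∪ Q : Finset (ℕ × ℕ)) : Set (ℕ × ℕ))) ≤
      degreeLT ℚ (2 * N + 1) := by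
    rw [Submodule.span_le]
    rintro _ ⟨x, hx, rfl⟩
    rw [Finset.mem_coe, Finset.mem_union] at hx
    rcases hx with hx | hx
    · exact mon_mem_degreeLT x N (hNP x hx)
    · exact mon_mem_degreeLT x N (hNQ x hx)
  have hfd : Module.Finite ℚ (degreeLT ℚ (2 * N + 1)) :=
    Module.Finite.equiv (degreeLTEquiv ℚ (2 * N + 1)).symm
  have h3 := Submodule.finrank_mono h2
  have h4 : Module.finrank ℚ (degreeLT ℚ (2 * N + 1)) = 2 * N + 1 := by
    rw [(degreeLTEquiv ℚ (2 * N + 1)).finrank_eq]
    simp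
  omega

end Pool.Agent.LibHN1
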