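import Pool.Agent.LibHN1.P
import Pool.Agent.LibHN1.E

set_option autoImplicit false

namespace Pool.Agent.LibHN1

open MvPolynomial Pool.HB89

/-- one three: in every large square almost all values are not algebraic of degree `≤ d` over a space of bounded dimension. -/
theorem square_alg (r d : ℕ) (ε : ℝ) (hε : 0 < ε) :
    ∃ M₀ : ℕ, ∀ M ≥ M₀, ∀ (a : Fin 2 → ℕ) (K : Type) [Field K] [Algebra K ℂ]
      (_ : Transcendental K (Real.pi : ℂ)) (W : Submodule K ℂ) (_ : FiniteDimensional K W)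
      (_ : Module.finrank K W ≤ r),
      ({p : Fin 2 → ℕ | (∀ i, p i < M) ∧ AlgD d W (mzv (word 1 (a + p)) : ℂ)}.ncard : ℝ) ≤
        ε * (M : ℝ) ^ 2 := by
  obtain ⟨M₀, hM₀⟩ := exceptional_alg r d ε hε
  refine ⟨M₀, fun M hM a K _ _ hK W hWf hW => ?_⟩
  have hx : Transcendental K ((Real.pi : ℂ) ^ 2) := pi_sq_transcendental hK
  have h1 := hM₀ M hM K _ hx (fun p => (mzv (word 1 (a + ![p.1, p.2])) : ℂ))
    (fun p => mzv_word_ne_zero 1 _) (fun p => (nfac 1 (a + ![p.1, p.2]) : ℚ))
    (fun p => by exact_mod_cast nfac_ne_zero 1 _) (E6_L a) (fun p => E6_L_mon a p) W hWf hW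
  refine le_trans ?_ h1
  rw [Nat.cast_le]
  refine Set.ncard_le_ncard_of_injOn (fun p => (p 0, p 1)) ?_ ?_ ?_
  · intro p hp
    refine ⟨⟨hp.1 0, hp.1 1⟩, ?_⟩
    have : (![p 0, p 1] : Fin 2 → ℕ) = p := by
      funext i
      fin_cases i <;> rfl
    show AlgD d W (mzv (word 1 (a + ![p 0, p 1])) : ℂ)
    rw [this]
    exact hp.2
  · intro p _ q _ hpq
    simp only [Prod.mk.injEq] at hpq
    funext i
    fin_cases i
    · exact hpq.1
    · exact hpq.2
  · refine (Finset.finite_toSet (Finset.range M ×ˢ Finset.range M)).subset ?_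
    intro p hp
    rw [Finset.mem_coe, Finset.mem_product, Finset.mem_range, Finset.mem_range]
    exact hp.1

/-- the union bound. -/
theorem count_step (M s : ℕ) (B : Set (Fin (s + 1) → Fin 2 → ℕ)) (A : Set (Fin 2 → ℕ)) (α β : ℝ)
    (hβ : 0 ≤ β) (hB : ∀ p ∈ B, ∀ j i, p j i < M)
    (hA : ({p : Fin 2 → ℕ | (∀ i, p i < M) ∧ p ∈ A}.ncard : ℝ) ≤ α * (M : ℝ) ^ 2)
    (hfib : ∀ p0 : Fin 2 → ℕ, p0 ∉ A →
      ({q : Fin s → Fin 2 → ℕ | (Fin.cons p0 q : Fin (s + 1) → Fin 2 → ℕ) ∈ B}.ncard : ℝ) ≤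
        β * (M : ℝ) ^ (2 * s)) :
    (B.ncard : ℝ) ≤ (α + β) * (M : ℝ) ^ (2 * (s + 1)) := by
  classical
  set Q : Finset (Fin 2 → ℕ) := Fintype.piFinset (fun _ => Finset.range M) with hQ
  have hQmem : ∀ p : Fin 2 → ℕ, p ∈ Q ↔ ∀ i, p i < M := by
    intro p
    rw [hQ, Fintype.mem_piFinset]
    simp only [Finset.mem_range]
  have hQcard : Q.card = M ^ 2 := by
    rw [hQ, Fintype.card_piFinset]
    simp
  have hBfin : B.Finite := by
    refine (Finset.finite_toSet (Fintype.piFinset (fun _ : Fin (s + 1) => Q))).subset ?_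
    intro p hp
    rw [Finset.mem_coe, Fintype.mem_piFinset]
    intro j
    rw [hQmem]
    exact hB p hp j
  set Bf := hBfin.toFinset with hBf
  have hcard : B.ncard = Bf.card := Set.ncard_eq_toFinset_card B hBfin
  have hBmem : ∀ p, p ∈ Bf ↔ p ∈ B := fun p => by rw [hBf, Set.Finite.mem_toFinset]
  have hP0 : (0 : ℝ) ≤ (M : ℝ) ^ (2 * s) := by positivity
  have hfibre : ∀ p0 ∈ Q, ((Bf.filter (fun p => p 0 = p0)).card : ℝ) ≤
      (if p0 ∈ A then (M : ℝ) ^ (2 * s) else 0) + β * (M : ℝ) ^ (2 * s) := by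
    intro p0 hp0
    by_cases hz : p0 ∈ A
    · rw [if_pos hz]
      have h1 : (Bf.filter (fun p => p 0 = p0)).card ≤
          (Fintype.piFinset (fun _ : Fin s => Q)).card := by
        refine Finset.card_le_card_of_injOn (fun p => Fin.tail p) ?_ ?_
        · intro p hp
          rw [Finset.mem_coe, Finset.mem_filter, hBmem] at hp
          rw [Finset.mem_coe, Fintype.mem_piFinset]
          intro i
          rw [hQmem]
          exact hB p hp.1 i.succ
        · intro p hp p' hp' hpp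
          rw [Finset.mem_coe, Finset.mem_filter] at hp hp'
          rw [← Fin.cons_self_tail p, ← Fin.cons_self_tail p']
          simp only at hpp
          rw [hpp, hp.2, hp'.2]
      rw [Fintype.card_piFinset] at h1
      have h2 : ((Bf.filter (fun p => p 0 = p0)).card : ℝ) ≤ (M : ℝ) ^ (2 * s) := by
        refine (Nat.cast_le.2 h1).trans ?_
        rw [Finset.prod_const, hQcard, Finset.card_univ, Fintype.card_fin, ← pow_mul]
        push_cast
        exact le_rfl
      have h3 : 0 ≤ β * (M : ℝ) ^ (2 * s) := mul_nonneg hβ hP0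
      exact h2.trans (le_add_of_nonneg_right h3)
    · rw [if_neg hz, zero_add]
      refine le_trans ?_ (hfib p0 hz)
      rw [Nat.cast_le, ← Set.ncard_coe_finset]
      refine Set.ncard_le_ncard_of_injOn (fun p => Fin.tail p) ?_ ?_ ?_
      · intro p hp
        rw [Finset.mem_coe, Finset.mem_filter, hBmem] at hp
        show (Fin.cons p0 (Fin.tail p) : Fin (s + 1) → Fin 2 → ℕ) ∈ B
        rw [← hp.2, Fin.cons_self_tail]
        exact hp.1
      · intro p hp p' hp' hpp
        rw [Finset.mem_coe, Finset.mem_filter] at hp hp'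
        rw [← Fin.cons_self_tail p, ← Fin.cons_self_tail p']
        simp only at hpp
        rw [hpp, hp.2, hp'.2]
      · refine (Finset.finite_toSet (Fintype.piFinset (fun _ : Fin s => Q))).subset ?_
        intro q hq
        rw [Finset.mem_coe, Fintype.mem_piFinset]
        intro j
        rw [hQmem]
        intro i
        have := hB _ hq j.succ i
        rwa [Fin.cons_succ] at this
  have hsum : Bf.card = ∑ p0 ∈ Q, (Bf.filter (fun p => p 0 = p0)).card := by
    refine Finset.card_eq_sum_card_fiberwise ?_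
    intro p hp
    rw [Finset.mem_coe, hBmem] at hp
    rw [Finset.mem_coe, hQmem]
    exact hB p hp 0
  have hzero : (∑ p0 ∈ Q, if p0 ∈ A then (M : ℝ) ^ (2 * s) else 0) ≤
      α * (M : ℝ) ^ 2 * (M : ℝ) ^ (2 * s) := by
    have h2 : {p : Fin 2 → ℕ | (∀ i, p i < M) ∧ p ∈ A}.ncard = (Q.filter (fun p => p ∈ A)).card := by
      rw [← Set.ncard_coe_finset]
      congr 1
      ext p
      rw [Finset.mem_coe, Finset.mem_filter, hQmem]
      rfl
    rw [h2] at hA
    rw [← Finset.sum_filter, Finset.sum_const, nsmul_eq_mul]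
    exact mul_le_mul_of_nonneg_right hA hP0
  rw [hcard, hsum]
  push_cast
  calc ∑ p0 ∈ Q, ((Bf.filter (fun p => p 0 = p0)).card : ℝ)
      ≤ ∑ p0 ∈ Q, ((if p0 ∈ A then (M : ℝ) ^ (2 * s) else 0) + β * (M : ℝ) ^ (2 * s)) :=
        Finset.sum_le_sum hfibre
    _ = (∑ p0 ∈ Q, if p0 ∈ A then (M : ℝ) ^ (2 * s) else 0) + Q.card * (β * (M : ℝ) ^ (2 * s)) := by
        rw [Finset.sum_add_distrib, Finset.sum_const, nsmul_eq_mul]
    _ ≤ α * (M : ℝ) ^ 2 * (M : ℝ) ^ (2 * s) + Q.card * (β * (M : ℝ) ^ (2 * s)) := by linarith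
    _ = (α + β) * (M : ℝ) ^ (2 * (s + 1)) := by
        rw [hQcard]
        push_cast
        ring

/-- almost all tuples satisfy no relation of degree `≤ d` with coefficients in a space of bounded dimension. -/
theorem tuples_alg (d : ℕ) (s : ℕ) : ∀ (r : ℕ) (ε : ℝ), 0 < ε →
    ∃ M₀ : ℕ, ∀ M ≥ M₀, ∀ (a : Fin s → Fin 2 → ℕ) (K : Type) [Field K] [Algebra K ℂ]
      (_ : Transcendental K (Real.pi : ℂ)) (W : Submodule K ℂ) (_ : FiniteDimensional K W)
      (_ : Module.finrank K W ≤ r),
      ({p : Fin s → Fin 2 → ℕ | (∀ j i, p j i < M) ∧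
        Rel d W (fun j => (mzv (word 1 (a j + p j)) : ℂ))}.ncard : ℝ) ≤
        ε * (M : ℝ) ^ (2 * s) := by
  induction s with
  | zero =>
    intro r ε hε
    refine ⟨0, fun M _ a K _ _ _ W _ _ => ?_⟩
    have : {p : Fin 0 → Fin 2 → ℕ | (∀ j i, p j i < M) ∧
        Rel d W (fun j => (mzv (word 1 (a j + p j)) : ℂ))} = ∅ := by
      ext p
      simp only [Set.mem_ofPred_eq, Set.mem_empty_iff_false, iff_false, not_and]
      rintro _ ⟨P, hP, _, _, hev⟩
      apply hP
      rw [eq_C_of_isEmpty P] at hev ⊢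
      rw [eval_C] at hev
      rw [hev, C_0]
    rw [this]
    simp only [Set.ncard_empty, Nat.cast_zero, mul_zero, pow_zero, mul_one]
    exact hε.le
  | succ s ih =>
    intro r ε hε
    obtain ⟨M₁, h₁⟩ := square_alg r d (ε / 2) (half_pos hε)
    obtain ⟨M₂, h₂⟩ := ih ((d + 1) * r) (ε / 2) (half_pos hε)
    refine ⟨max M₁ M₂, fun M hM a K _ _ hK W hWf hW => ?_⟩
    have hA := h₁ M ((le_max_left _ _).trans hM) (a 0) K hK W hWf hW
    have h := count_step M s {p : Fin (s + 1) → Fin 2 → ℕ | (∀ j i, p j i < M) ∧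
        Rel d W (fun j => (mzv (word 1 (a j + p j)) : ℂ))}
      {p : Fin 2 → ℕ | AlgD d W (mzv (word 1 (a 0 + p)) : ℂ)} (ε / 2) (ε / 2) (half_pos hε).le
      (fun p hp => hp.1) hA ?_
    · rwa [add_halves] at h
    · intro p0 hp0
      have hW' : Module.finrank K (LinearMap.range (powMap d W (mzv (word 1 (a 0 + p0)) : ℂ))) ≤
          (d + 1) * r :=
        (finrank_range_powMap d W _).trans (Nat.mul_le_mul_left _ hW)
      have h3 := h₂ M ((le_max_right _ _).trans hM) (fun j => a j.succ) K hK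
        (LinearMap.range (powMap d W (mzv (word 1 (a 0 + p0)) : ℂ))) inferInstance hW'
      refine le_trans ?_ h3
      rw [Nat.cast_le]
      refine Set.ncard_le_ncard ?_ ?_
      · intro q hq
        refine ⟨fun j i => ?_, ?_⟩
        · have := hq.1 j.succ i
          rwa [Fin.cons_succ] at this
        · have h4 : ¬ AlgD d W ((fun j : Fin (s + 1) => (mzv (word 1 (a j +
              (Fin.cons p0 q : Fin (s + 1) → Fin 2 → ℕ) j)) : ℂ)) 0) := by
            simp only [Fin.cons_zero]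
            exact hp0
          have h5 := Rel.reduce d W (fun j : Fin (s + 1) => (mzv (word 1 (a j +
              (Fin.cons p0 q : Fin (s + 1) → Fin 2 → ℕ) j)) : ℂ)) hq.2 h4
          simp only [Fin.cons_zero, Fin.cons_succ] at h5
          exact h5
      · refine (Finset.finite_toSet (Fintype.piFinset (fun _ : Fin s =>
          Fintype.piFinset (fun _ : Fin 2 => Finset.range M)))).subset ?_
        intro q hq
        rw [Finset.mem_coe, Fintype.mem_piFinset]
        intro j
        rw [Fintype.mem_piFinset]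
        intro i
        rw [Finset.mem_range]
        exact hq.1 j i

end Pool.Agent.LibHN1
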