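import Pool.Agent.LibHof81.V1
import Pool.Agent.LibHof81.V2

set_option autoImplicit false

namespace Pool.Agent.LibHN1

open Polynomial

/-- `z` is a root of a nonzero polynomial of degree at most `d` with coefficients in `W`. -/
def AlgD {K : Type*} [Field K] [Algebra K ℂ] (d : ℕ) (W : Submodule K ℂ) (z : ℂ) : Prop :=
  ∃ P : ℂ[X], P ≠ 0 ∧ P.natDegree ≤ d ∧ (∀ i, P.coeff i ∈ W) ∧ P.eval z = 0

/-- Newton polygon: a root has a value determined by two coefficients. -/
theorem value_of_root {Γ : Type} [LinearOrderedCommGroupWithZero Γ] (v : Valuation ℂ Γ)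
    (P : ℂ[X]) (hP : P ≠ 0) (z : ℂ) (hz : P.eval z = 0) (hz0 : z ≠ 0) :
    ∃ i j : ℕ, i < j ∧ j ≤ P.natDegree ∧ P.coeff i ≠ 0 ∧ P.coeff j ≠ 0 ∧
      v (P.coeff i) = v z ^ (j - i) * v (P.coeff j) := by
  classical
  have hS : P.support.Nonempty := by
    rwa [Polynomial.support_nonempty]
  obtain ⟨m, hm, hmax⟩ := P.support.exists_max_image (fun i => v (P.coeff i * z ^ i)) hS
  by_contra hcon
  have hdist : ∀ i ∈ P.support \ {m}, v (P.coeff i * z ^ i) < v (P.coeff m * z ^ m) := by
    intro i hi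
    rw [Finset.mem_sdiff, Finset.mem_singleton] at hi
    refine lt_of_le_of_ne (hmax i hi.1) ?_
    intro heq
    apply hcon
    have hvz : v z ≠ 0 := (Valuation.ne_zero_iff v).2 hz0
    have hci := Polynomial.mem_support_iff.1 hi.1
    have hcm := Polynomial.mem_support_iff.1 hm
    rw [map_mul, map_mul, map_pow, map_pow] at heq
    rcases lt_or_gt_of_ne hi.2 with h | h
    · refine ⟨i, m, h, Polynomial.le_natDegree_of_ne_zero hcm, hci, hcm, ?_⟩
      have h2 : v z ^ m = v z ^ i * v z ^ (m - i) := by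
        rw [← pow_add]
        congr 1
        omega
      rw [h2] at heq
      have h3 : v z ^ i * v (P.coeff i) = v z ^ i * (v z ^ (m - i) * v (P.coeff m)) := by
        rw [mul_comm (v z ^ i) (v (P.coeff i)), heq, mul_comm (v (P.coeff m)), mul_assoc]
      exact mul_left_cancel₀ (pow_ne_zero i hvz) h3
    · refine ⟨m, i, h, Polynomial.le_natDegree_of_ne_zero hci, hcm, hci, ?_⟩
      have h2 : v z ^ i = v z ^ m * v z ^ (i - m) := by
        rw [← pow_add]
        congr 1
        omega
      rw [h2] at heq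
      have h3 : v z ^ m * v (P.coeff m) = v z ^ m * (v z ^ (i - m) * v (P.coeff i)) := by
        rw [mul_comm (v z ^ m) (v (P.coeff m)), ← heq, mul_comm (v (P.coeff i)), mul_assoc]
      exact mul_left_cancel₀ (pow_ne_zero m hvz) h3
  have hs := v.map_sum_eq_of_lt hm hdist
  rw [← Polynomial.sum_def P (fun i a => a * z ^ i), ← Polynomial.eval_eq_sum, hz, map_zero] at hs
  have hcm := Polynomial.mem_support_iff.1 hm
  have : v (P.coeff m * z ^ m) ≠ 0 := (Valuation.ne_zero_iff v).2 (mul_ne_zero hcm (pow_ne_zero m hz0))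
  exact this hs.symm

/-- a valuation trivial on `K` takes few values on the numbers algebraic of degree `≤ d` over a space of dimension `≤ r`. -/
theorem values_alg {K : Type*} [Field K] [Algebra K ℂ] {Γ : Type}
    [LinearOrderedCommGroupWithZero Γ] (v : Valuation ℂ Γ)
    (hv : ∀ k : K, k ≠ 0 → v (algebraMap K ℂ k) = 1) (r d : ℕ) (w : Fin r → ℂ) :
    ∃ D : Finset Γ, D.card ≤ d * r ^ 2 ∧
      ∀ z, z ≠ 0 → AlgD d (Submodule.span K (Set.range w)) z → v z ∈ D := by
  classical
  obtain ⟨E, hEcard, hE⟩ := Pool.Agent.LibHof81.values_card v hv r w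
  let f : (Γ × Γ) × ℕ → Γ := fun p =>
    if h : ∃ γ : Γ, p.1.1 = γ ^ (p.2 + 1) * p.1.2 then h.choose else 0
  refine ⟨((E ×ˢ E) ×ˢ Finset.range d).image f, ?_, ?_⟩
  · refine Finset.card_image_le.trans ?_
    rw [Finset.card_product, Finset.card_product, Finset.card_range]
    have := Nat.mul_le_mul hEcard hEcard
    nlinarith
  · intro z hz ⟨P, hP, hdeg, hcoeff, heval⟩
    obtain ⟨i, j, hij, hj, hci, hcj, hval⟩ := value_of_root v P hP z heval hz
    rw [Finset.mem_image]
    refine ⟨((v (P.coeff i), v (P.coeff j)), j - i - 1), ?_, ?_⟩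
    · rw [Finset.mem_product, Finset.mem_product, Finset.mem_range]
      exact ⟨⟨hE _ (hcoeff i) hci, hE _ (hcoeff j) hcj⟩, by show j - i - 1 < d; omega⟩
    · have hji : j - i - 1 + 1 = j - i := by omega
      have h3 : ∃ γ : Γ, v (P.coeff i) = γ ^ (j - i - 1 + 1) * v (P.coeff j) := ⟨v z, by rw [hji]; exact hval⟩
      show (if h : ∃ γ : Γ, v (P.coeff i) = γ ^ (j - i - 1 + 1) * v (P.coeff j) then h.choose else 0) = v z
      rw [dif_pos h3]
      have h5 := h3.choose_spec
      have hvcj : v (P.coeff j) ≠ 0 := (Valuation.ne_zero_iff v).2 hcj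
      have h6 : h3.choose ^ (j - i - 1 + 1) = v z ^ (j - i - 1 + 1) := by
        apply mul_right_cancel₀ hvcj
        rw [← h5, hji]
        exact hval
      exact (pow_left_inj₀ zero_le' zero_le' (by omega)).1 h6

end Pool.Agent.LibHN1
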